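import Mathlib
import Pool.Agent.H290R3.HHG.Defs
import Pool.Agent.H290R3.HHG.Struct
import Pool.Agent.H290R3.HHG.NotSQC

set_option autoImplicit false

/-- There are a hierarchically hyperbolic group and a finitely generated almost malnormal
subgroup of it that is not strongly quasiconvex. -/
theorem Pool.Agent.Results.MP_7eef47_al.MalnormalNotSQC.result :
    ∃ (G : Type) (_ : Group G) (T : Set G), T.Finite ∧ Subgroup.closure T = ⊤ ∧
      Nonempty (Pool.Agent.H290R3.HHGDefs.HHG G T) ∧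
      ∃ H : Subgroup G, H.FG ∧ Pool.Agent.H290R3.HHGDefs.AlmostMalnormal H ∧
        ¬ Pool.Agent.H290R3.HHGDefs.StronglyQuasiconvex T H :=
  ⟨Pool.Agent.H290R3.HHG.QG, inferInstance, Pool.Agent.H290R3.HHG.gens,
    Pool.Agent.H290R3.HHG.gens_finite, Pool.Agent.H290R3.HHG.closure_gens,
    ⟨Pool.Agent.H290R3.HHG.hhg⟩, Pool.Agent.H290R3.HHG.HH, Pool.Agent.H290R3.HHG.HH_fg,
    Pool.Agent.H290R3.HHG.almostMalnormal_HH, Pool.Agent.H290R3.HHG.not_sqc⟩
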